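import Mathlib
import Pool.Agent.H5.Unital

namespace Pool.Agent.Results.MP_bc9e10_co.Unital

open Pool.Agent.H5.LinSp Pool.Agent.H5.Unital

theorem result : ∀ N : ℕ, ∃ n : ℕ, N ≤ n ∧ ∃ H : Finset (Finset (Fin n)),
    (∀ e ∈ H, e.card = 3) ∧
    (∀ F : Finset (Finset (Fin n)), F ⊆ H → (F.biUnion id).card = 2 * 3 →
      ¬ ∀ v ∈ F.biUnion id, (F.filter fun e => v ∈ e).card = 2) ∧
    H.card = n.choose 2 ∧
    (n - 1).choose (3 - 1) + (n - 1) / 3 < H.card := by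
  intro N
  obtain ⟨P⟩ := tower N
  refine ⟨2 ^ (2 * 3 ^ N) + 1, ?_, hyp P, fun e he => (mem_hyp P he).1,
    fun F hF hU hd => no_reg P F hF hU hd, by rw [hyp_card, Fintype.card_fin], ?_⟩
  · have h1 : N < 3 ^ N := Nat.lt_pow_self (by norm_num)
    have h2 : 2 * 3 ^ N < 2 ^ (2 * 3 ^ N) := Nat.lt_pow_self (by norm_num)
    omega
  · rw [hyp_card, Fintype.card_fin]
    have h0 : 0 < 2 ^ (2 * 3 ^ N) := by positivity
    generalize 2 ^ (2 * 3 ^ N) = m at h0 ⊢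
    rw [Nat.add_sub_cancel, Nat.choose_succ_succ' m 1, Nat.choose_one_right]
    show m.choose 2 + m / 3 < m + m.choose 2
    omega

end Pool.Agent.Results.MP_bc9e10_co.Unital
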